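import Pool.Agent.MP_b814b1_ag.Main
import Pool.Agent.MP_b814b1_ag.Fermat4

/-!
# MP_b814b1_ag: Butler's conjecture fails on every non-hyperelliptic curve of genus 3

For every smooth projective curve `C` of genus `3` over the complex numbers without a `g^1_2`
(and such curves exist, for example the Fermat quartic), the Brill-Noether locus
`W^5_{4,9}(C)` has an irreducible component `W` whose general element `E` is globally generated,
satisfies `h^0(E) = 6`, and has a kernel bundle `M_{E,V}`, `V = H^0(E)`, that is not semistable.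

The definitions are in `Pool/Agent/MP_b814b1_ag/Defs.lean`.
-/

open Pool.Agent.MP_b814b1_ag

namespace Pool.Agent.Results.MP_b814b1_ag.ButlerFails

theorem result :
    (∃ (K : Type) (_ : Field K) (_ : Algebra ℂ K) (x : K),
      IsCurve ℂ x ∧ genus ℂ x = 3 ∧ ¬ HasG12 ℂ x) ∧
    ∀ (K : Type) [Field K] [Algebra ℂ K] (x : K), IsCurve ℂ x → genus ℂ x = 3 → ¬ HasG12 ℂ x →
      ∃ W ∈ irreducibleComponents (BN ℂ x 4 9 6),
        General W (fun E => E.GG) ∧ General W (fun E => E.KernelUnstable 6) := by
  refine ⟨⟨Fermat.FK, inferInstance, inferInstance, Fermat.xx, Fermat.isCurve, Fermat.genus_eq,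
    Fermat.no_g12⟩, ?_⟩
  intro K _ _ x hx hg hh
  exact main hg hh

end Pool.Agent.Results.MP_b814b1_ag.ButlerFails
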